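import Pool.Agent.U295.SP.F

set_option autoImplicit false

/-!
# A supercongruence for Pell-companion-weighted sums of squared central binomial coefficients, with a factor `k`

For every prime `p ≡ 1, 3` modulo `8`, written as `p = x² + 2y²` with `x ≡ 1` or `3` modulo `8`,
`∑_{k<p} k Q_k C(2k,k)² / (-8)^k` is `0` modulo `p²` when `p ≡ 1` modulo `8`, and
`(-1)^((p-3)/8) · 2 (x + p/x)` modulo `p²` when `p ≡ 3` modulo `8` (Q2).
-/

namespace Pool.Agent.Results.MP_a989c0_nt.QTwo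

open Finset

/-- the companion Pell sequence `Q_0 = Q_1 = 2`, `Q_{n+2} = 2 Q_{n+1} + Q_n` -/
def Q : ℕ → ℤ
  | 0 => 2
  | 1 => 2
  | n + 2 => 2 * Q (n + 1) + Q n

/-- the sum `S_1(p)` of the problem -/
def S1 (p : ℕ) : ℚ := ∑ k ∈ range p, (k : ℚ) * (Q k : ℚ) / (-8) ^ k * ((2 * k).choose k : ℚ) ^ 2

/-- `u ≡ v` modulo `p^m`, i.e. `u - v` is `p^m` times a rational number whose denominator is prime to `p` -/
def Cong (p m : ℕ) (u v : ℚ) : Prop := ∃ (n : ℤ) (d : ℕ), ¬ p ∣ d ∧ u - v = (p : ℚ) ^ m * (n / d)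

theorem Q_eq (n : ℕ) : Q n = Pool.Agent.Q267.E8.Qn n ∧ Q (n + 1) = Pool.Agent.Q267.E8.Qn (n + 1) := by
  induction n with
  | zero => exact ⟨rfl, rfl⟩
  | succ n ih =>
    refine ⟨ih.2, ?_⟩
    rw [Q, Pool.Agent.Q267.E8.Qn, ih.1, ih.2]

theorem S1_eq (p : ℕ) : S1 p = Pool.Agent.U295.SP.S1 p := by
  unfold S1 Pool.Agent.U295.SP.S1
  refine sum_congr rfl fun k _ => ?_
  rw [(Q_eq k).1]

/-- the statement for `x ≡ 1` modulo `4` -/
theorem aux (p : ℕ) (hp : p.Prime) (h8 : p % 8 = 3) (x y : ℤ) (hxy : (p : ℤ) = x ^ 2 + 2 * y ^ 2)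
    (hx : x % 4 = 1) : Cong p 2 (S1 p) (2 * ((x : ℚ) + (p : ℚ) / (x : ℚ))) := by
  haveI : Fact p.Prime := ⟨hp⟩
  rcases Nat.lt_or_ge 3 p with h3 | h3
  · rw [S1_eq]
    exact Pool.Agent.U295.SP.main3 p h3 h8 x y hxy (by omega)
  · have hx2 : x ^ 2 ≤ 3 := by nlinarith [sq_nonneg y, (by exact_mod_cast h3 : (p : ℤ) ≤ 3)]
    have hx1 : x = 1 := by
      have : x ≤ 1 := by nlinarith
      have : -2 < x := by nlinarith
      omega
    subst hx1
    have hp3 : p = 3 := by omega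
    subst hp3
    refine ⟨-1, 4, by norm_num, ?_⟩
    rw [S1, sum_range_succ, sum_range_succ, sum_range_succ, sum_range_zero]
    have h0 : Q 0 = 2 := rfl
    have h1 : Q 1 = 2 := rfl
    have h2 : Q 2 = 6 := rfl
    have c0 : (2 * 0).choose 0 = 1 := rfl
    have c1 : (2 * 1).choose 1 = 2 := rfl
    have c2 : (2 * 2).choose 2 = 6 := rfl
    rw [h0, h1, h2, c0, c1, c2]
    norm_num

/-- `x ≡ 1` modulo `8` if and only if `p ≡ 3` modulo `16` -/
theorem sign (p : ℕ) (h8 : p % 8 = 3) (x y : ℤ) (hxy : (p : ℤ) = x ^ 2 + 2 * y ^ 2)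
    (hx : x % 8 = 1 ∨ x % 8 = 3) : (x % 8 = 1 ∧ p % 16 = 3) ∨ (x % 8 = 3 ∧ p % 16 = 11) := by
  obtain ⟨a, ha⟩ : ∃ a, x = 8 * a + x % 8 := ⟨x / 8, by omega⟩
  have hy : y % 2 = 1 := by
    rcases Int.emod_two_eq_zero_or_one y with h | h
    · obtain ⟨b, hb⟩ : ∃ b, y = 2 * b := ⟨y / 2, by omega⟩
      exfalso
      rcases hx with h1 | h1
      · rw [h1] at ha
        have e : (p : ℤ) = 8 * (8 * a ^ 2 + 2 * a + b ^ 2) + 1 := by rw [hxy, ha, hb]; ring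
        omega
      · rw [h1] at ha
        have e : (p : ℤ) = 8 * (8 * a ^ 2 + 6 * a + b ^ 2 + 1) + 1 := by rw [hxy, ha, hb]; ring
        omega
    · exact h
  obtain ⟨b, hb⟩ : ∃ b, y = 2 * b + 1 := ⟨y / 2, by omega⟩
  obtain ⟨t, ht⟩ : ∃ t, b * (b + 1) = 2 * t := (Int.even_mul_succ_self b).two_dvd
  rcases hx with h1 | h1
  · left
    refine ⟨h1, ?_⟩
    rw [h1] at ha
    have e : (p : ℤ) = 16 * (4 * a ^ 2 + a + t) + 3 := by
      rw [hxy, ha, hb]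
      linear_combination 8 * ht
    omega
  · right
    refine ⟨h1, ?_⟩
    rw [h1] at ha
    have e : (p : ℤ) = 16 * (4 * a ^ 2 + 3 * a + t) + 11 := by
      rw [hxy, ha, hb]
      linear_combination 8 * ht
    omega

/-- **The supercongruence of Q2 holds for every prime `p ≡ 1, 3` modulo `8`.** -/
theorem result (p : ℕ) (hp : p.Prime) (h8 : p % 8 = 1 ∨ p % 8 = 3) :
    (∃ x y : ℤ, (p : ℤ) = x ^ 2 + 2 * y ^ 2 ∧ (x % 8 = 1 ∨ x % 8 = 3)) ∧
    ∀ x y : ℤ, (p : ℤ) = x ^ 2 + 2 * y ^ 2 → (x % 8 = 1 ∨ x % 8 = 3) →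
      Cong p 2 (S1 p) (if p % 8 = 1 then 0 else
        (-1 : ℚ) ^ ((p - 3) / 8) * (2 * ((x : ℚ) + (p : ℚ) / (x : ℚ)))) := by
  haveI : Fact p.Prime := ⟨hp⟩
  refine ⟨?_, fun x y hxy hx => ?_⟩
  · obtain ⟨x, y, hxy, hx⟩ := Pool.Agent.Q121.E8.rp p h8
    rcases (show x % 8 = 1 ∨ x % 8 = 5 by omega) with h | h
    · exact ⟨x, y, hxy, Or.inl h⟩
    · exact ⟨-x, y, by rw [hxy]; ring, Or.inr (by omega)⟩
  · by_cases h1 : p % 8 = 1
    · rw [if_pos h1, S1_eq]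
      exact Pool.Agent.U295.SP.main1 p h1
    · have h3 : p % 8 = 3 := by omega
      rw [if_neg h1]
      rcases sign p h3 x y hxy hx with ⟨hx1, hp16⟩ | ⟨hx1, hp16⟩
      · have hev : Even ((p - 3) / 8) := by
          rw [Nat.even_iff]
          omega
        rw [hev.neg_one_pow, one_mul]
        exact aux p hp h3 x y hxy (by omega)
      · have hodd : Odd ((p - 3) / 8) := by
          rw [Nat.odd_iff]
          omega
        rw [hodd.neg_one_pow]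
        have := aux p hp h3 (-x) y (by rw [hxy]; ring) (by omega)
        have e : (-1 : ℚ) * (2 * ((x : ℚ) + (p : ℚ) / (x : ℚ))) =
            2 * (((-x : ℤ) : ℚ) + (p : ℚ) / ((-x : ℤ) : ℚ)) := by
          push_cast
          rw [div_neg]
          ring
        rw [e]
        exact this

end Pool.Agent.Results.MP_a989c0_nt.QTwo
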